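import Mathlib

/-!
# Retractional skeletons without a common subskeleton

This answers Q1 of MP_fb95e7_gt in the negative, for every compact space `K` and every set `D`
induced by a retractional skeleton on `K`.
-/

namespace Pool.Agent.Results.MP_fb95e7_gt.NoCommonSubskeleton

open Set Filter Topology

universe u v w

/-- A retractional skeleton on `K` indexed by the partially ordered set `Γ`. -/
structure RetractionalSkeleton (K : Type u) [TopologicalSpace K] (Γ : Type v)
    [PartialOrder Γ] where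
  /-- the retractions -/
  r : Γ → K → K
  continuous_r : ∀ s, Continuous (r s)
  retraction : ∀ s, r s ∘ r s = r s
  /-- `Γ` is up-directed -/
  nonempty : Nonempty Γ
  directed : ∀ s t : Γ, ∃ u, s ≤ u ∧ t ≤ u
  /-- `Γ` is `σ`-complete -/
  sigmaComplete : ∀ s : ℕ → Γ, Monotone s → ∃ t, IsLUB (range s) t
  metrizable : ∀ s, TopologicalSpace.MetrizableSpace (range (r s))
  comm : ∀ s t, s ≤ t → r s = r s ∘ r t ∧ r s = r t ∘ r s
  tendsto_sup : ∀ s : ℕ → Γ, StrictMono s → ∀ t, IsLUB (range s) t →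
    ∀ x, Tendsto (fun n => r (s n) x) atTop (𝓝 (r t x))
  tendsto_id : ∀ x, Tendsto (fun s => r s x) atTop (𝓝 x)

/-- The set `D(𝔰)` induced by a retractional skeleton. -/
def RetractionalSkeleton.induced {K : Type u} [TopologicalSpace K] {Γ : Type v}
    [PartialOrder Γ] (𝔰 : RetractionalSkeleton K Γ) : Set K :=
  ⋃ s, range (𝔰.r s)

/-- `Γ' ⊆ Γ` is cofinal. -/
def Cofinal {Γ : Type v} [PartialOrder Γ] (Γ' : Set Γ) : Prop :=
  ∀ s : Γ, ∃ t ∈ Γ', s ≤ t

/-- `Γ' ⊆ Γ` is `σ`-closed. -/
def SigmaClosed {Γ : Type v} [PartialOrder Γ] (Γ' : Set Γ) : Prop :=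
  ∀ s : ℕ → Γ, Monotone s → (∀ n, s n ∈ Γ') → ∀ t, IsLUB (range s) t → t ∈ Γ'

/-- The retractional skeleton `R`, indexed by `Λ`, is up to re-indexing a subskeleton of `𝔰`: there
are a `σ`-closed cofinal subset `Γ'` of the index set of `𝔰` and an order isomorphism
`φ : Λ → Γ'` with `R_i = r_{φ(i)}` for all `i`. -/
def IsSubskeletonUpToReindexing {K : Type u} [TopologicalSpace K] {Λ : Type w} [PartialOrder Λ]
    {Γ : Type v} [PartialOrder Γ] (R : RetractionalSkeleton K Λ)
    (𝔰 : RetractionalSkeleton K Γ) : Prop :=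
  ∃ (Γ' : Set Γ) (φ : Λ ≃o Γ'), SigmaClosed Γ' ∧ Cofinal Γ' ∧
    ∀ i, R.r i = 𝔰.r (φ i)

variable {K : Type u} [TopologicalSpace K]

/-- Condition (3) also holds for weakly increasing sequences. -/
theorem RetractionalSkeleton.tendsto_of_monotone {Γ : Type v} [PartialOrder Γ]
    (𝔰 : RetractionalSkeleton K Γ) (s : ℕ → Γ) (hs : Monotone s) (t : Γ)
    (ht : IsLUB (range s) t) (x : K) :
    Tendsto (fun n => 𝔰.r (s n) x) atTop (𝓝 (𝔰.r t x)) := by
  by_cases h : ∃ N, ∀ n ≥ N, s n = s N
  · obtain ⟨N, hN⟩ := h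
    have h1 : t = s N := by
      apply le_antisymm
      · apply ht.2
        rintro _ ⟨n, rfl⟩
        rcases le_total n N with h | h
        · exact hs h
        · exact (hN n h).le
      · exact ht.1 ⟨N, rfl⟩
    rw [h1]
    apply tendsto_const_nhds.congr'
    filter_upwards [eventually_ge_atTop N] with n hn
    rw [hN n hn]
  · push Not at h
    apply Filter.tendsto_of_subseq_tendsto
    intro ns hns
    -- choose a subsequence along which `s` is strictly increasing
    have key : ∀ k : ℕ, ∃ l, k < l ∧ s (ns k) < s (ns l) := by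
      intro k
      obtain ⟨n, hn, hne⟩ := h (ns k)
      have h1 : s (ns k) < s n := lt_of_le_of_ne (hs hn) (Ne.symm hne)
      obtain ⟨l, hl1, hl2⟩ := ((hns.eventually (eventually_ge_atTop n)).and
        (eventually_gt_atTop k)).exists
      exact ⟨l, hl2, h1.trans_le (hs hl1)⟩
    choose f hf1 hf2 using key
    let ms : ℕ → ℕ := fun n => f^[n] 0
    have hms : ∀ n, ms (n + 1) = f (ms n) := fun n => Function.iterate_succ_apply' f n 0
    have hmono : StrictMono fun n => s (ns (ms n)) := by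
      apply strictMono_nat_of_lt_succ
      intro n
      rw [hms]
      exact hf2 _
    have hmsmono : StrictMono ms := by
      apply strictMono_nat_of_lt_succ
      intro n
      rw [hms]
      exact hf1 _
    refine ⟨ms, 𝔰.tendsto_sup _ hmono t ?_ x⟩
    constructor
    · rintro _ ⟨n, rfl⟩
      exact ht.1 ⟨_, rfl⟩
    · intro b hb
      apply ht.2
      rintro _ ⟨n, rfl⟩
      obtain ⟨k, hk⟩ := ((hns.comp hmsmono.tendsto_atTop).eventually
        (eventually_ge_atTop n)).exists
      exact (hs hk).trans (hb ⟨k, rfl⟩)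

/-- The poset of countable subsets of `S`. -/
abbrev CountableSets (S : Type v) : Type v := {A : Set S // A.Countable}

theorem isLUB_countableSets {S : Type v} (A : ℕ → CountableSets S) :
    IsLUB (range A) ⟨⋃ n, (A n).1, countable_iUnion fun n => (A n).2⟩ := by
  constructor
  · rintro _ ⟨n, rfl⟩
    exact subset_iUnion (fun n => (A n).1) n
  · intro B hB
    exact iUnion_subset fun n => hB ⟨n, rfl⟩

/-- Blowing up the index set of a retractional skeleton. -/
def blowUp {Γ : Type v} [PartialOrder Γ] (𝔰 : RetractionalSkeleton K Γ) (S : Type v) :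
    RetractionalSkeleton K (Γ × CountableSets S) where
  r p := 𝔰.r p.1
  continuous_r p := 𝔰.continuous_r p.1
  retraction p := 𝔰.retraction p.1
  nonempty := by
    obtain ⟨s⟩ := 𝔰.nonempty
    exact ⟨(s, ⟨∅, countable_empty⟩)⟩
  directed := by
    rintro ⟨s, A⟩ ⟨t, B⟩
    obtain ⟨u, hs, ht⟩ := 𝔰.directed s t
    exact ⟨(u, ⟨A.1 ∪ B.1, A.2.union B.2⟩), ⟨hs, subset_union_left⟩, ⟨ht, subset_union_right⟩⟩
  sigmaComplete := by
    intro s hs
    obtain ⟨t, ht⟩ := 𝔰.sigmaComplete (fun n => (s n).1) fun m n h => (hs h).1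
    refine ⟨(t, ⟨⋃ n, (s n).2.1, countable_iUnion fun n => (s n).2.2⟩), isLUB_prod.2 ⟨?_, ?_⟩⟩
    · rw [← range_comp]
      exact ht
    · rw [← range_comp]
      exact isLUB_countableSets fun n => (s n).2
  metrizable p := 𝔰.metrizable p.1
  comm p q h := 𝔰.comm p.1 q.1 h.1
  tendsto_sup := by
    intro s hs t ht x
    have h1 := (isLUB_prod.1 ht).1
    rw [← range_comp] at h1
    exact 𝔰.tendsto_of_monotone (fun n => (s n).1) (fun m n h => (hs.monotone h).1) t.1 h1 x
  tendsto_id := by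
    intro x
    have h1 : Tendsto (Prod.fst : Γ × CountableSets S → Γ) atTop atTop := by
      rw [← prod_atTop_atTop_eq]
      exact tendsto_fst
    exact (𝔰.tendsto_id x).comp h1

theorem induced_blowUp {Γ : Type v} [PartialOrder Γ] (𝔰 : RetractionalSkeleton K Γ)
    (S : Type v) : (blowUp 𝔰 S).induced = 𝔰.induced := by
  ext x
  simp only [RetractionalSkeleton.induced, mem_iUnion]
  constructor
  · rintro ⟨p, hp⟩
    exact ⟨p.1, hp⟩
  · rintro ⟨s, hs⟩
    exact ⟨(s, ⟨∅, countable_empty⟩), hs⟩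

/-- No retractional skeleton is a subskeleton both of `𝔰` and of its blow-up by a large set. -/
theorem no_common {Γ : Type v} [PartialOrder Γ] (𝔰 : RetractionalSkeleton K Γ) {Λ : Type w}
    [PartialOrder Λ] (R : RetractionalSkeleton K Λ) (h₀ : IsSubskeletonUpToReindexing R 𝔰)
    (h₁ : IsSubskeletonUpToReindexing R (blowUp 𝔰 (Set (Γ × ℕ)))) : False := by
  classical
  obtain ⟨Γ₀, φ₀, -, -, -⟩ := h₀
  obtain ⟨Γ₁, φ₁, -, hcof, -⟩ := h₁
  obtain ⟨s₀⟩ := 𝔰.nonempty
  -- enumerate the countable sets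
  have henum : ∀ i : Λ, ∃ e : ℕ → Set (Γ × ℕ), (φ₁ i).1.2.1 ⊆ range e := by
    intro i
    rcases (φ₁ i).1.2.1.eq_empty_or_nonempty with h | h
    · exact ⟨fun _ => ∅, by rw [h]; exact empty_subset _⟩
    · obtain ⟨e, he⟩ := (φ₁ i).1.2.2.exists_eq_range h
      exact ⟨e, he.subset⟩
  choose e he using henum
  -- the resulting surjection
  let ψ : Λ → Γ := fun i => (φ₀ i).1
  have hψ : Function.Injective ψ := fun i j hij => φ₀.injective (Subtype.ext hij)
  let F : Γ × ℕ → Set (Γ × ℕ) := fun p =>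
    if h : ∃ i, ψ i = p.1 then e h.choose p.2 else ∅
  refine Function.cantor_surjective F ?_
  intro x
  obtain ⟨t, ht, hle⟩ := hcof (s₀, ⟨{x}, countable_singleton x⟩)
  obtain ⟨i, hi⟩ := φ₁.surjective ⟨t, ht⟩
  have hx : x ∈ (φ₁ i).1.2.1 := by
    rw [hi]
    exact hle.2 (mem_singleton x)
  obtain ⟨n, hn⟩ := he i hx
  refine ⟨(ψ i, n), ?_⟩
  have hex : ∃ j, ψ j = ψ i := ⟨i, rfl⟩
  have hch : hex.choose = i := hψ hex.choose_spec
  simp only [F]
  rw [dif_pos hex, hch]
  exact hn

/-- Every metrizable compact space has a retractional skeleton (with one index), so that the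
hypothesis of the main theorem below can be met. -/
def trivialSkeleton (K : Type u) [TopologicalSpace K] [TopologicalSpace.MetrizableSpace K] :
    RetractionalSkeleton K PUnit.{v + 1} where
  r _ := id
  continuous_r _ := continuous_id
  retraction _ := rfl
  nonempty := ⟨PUnit.unit⟩
  directed _ _ := ⟨PUnit.unit, le_rfl, le_rfl⟩
  sigmaComplete _ _ := ⟨PUnit.unit, fun _ _ => trivial, fun _ _ => trivial⟩
  metrizable _ := inferInstance
  comm _ _ _ := ⟨rfl, rfl⟩
  tendsto_sup _ _ _ _ _ := tendsto_const_nhds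
  tendsto_id _ := tendsto_const_nhds

/-- The index sets of the sequence of skeletons. -/
def Idx (Γ : Type v) : ℕ → Type v
  | 0 => Γ
  | _ + 1 => Γ × CountableSets (Set (Γ × ℕ))

/-- The orders of the index sets. -/
instance idxOrder (Γ : Type v) [PartialOrder Γ] : ∀ n, PartialOrder (Idx Γ n)
  | 0 => inferInstanceAs (PartialOrder Γ)
  | _ + 1 => inferInstanceAs (PartialOrder (Γ × CountableSets (Set (Γ × ℕ))))

/-- The sequence of skeletons. -/
def skel {Γ : Type v} [PartialOrder Γ] (𝔰 : RetractionalSkeleton K Γ) :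
    ∀ n, RetractionalSkeleton K (Idx Γ n)
  | 0 => 𝔰
  | _ + 1 => blowUp 𝔰 (Set (Γ × ℕ))

/-- Let `K` be a compact Hausdorff space and let `D` be the set induced by some retractional
skeleton `𝔰₀` on `K`. Then there is a sequence `𝔰_n` of retractional skeletons on `K`, all
inducing the set `D`, such that no retractional skeleton on `K` is a common subskeleton of
them. -/
theorem result (K : Type u) [TopologicalSpace K] [CompactSpace K] [T2Space K]
    (Γ₀ : Type v) [PartialOrder Γ₀] (𝔰₀ : RetractionalSkeleton K Γ₀) :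
    ∃ (Γ : ℕ → Type v) (_ : ∀ n, PartialOrder (Γ n)) (𝔰 : ∀ n, RetractionalSkeleton K (Γ n)),
      (∀ n, (𝔰 n).induced = 𝔰₀.induced) ∧
      ¬ ∃ (Λ : Type w) (_ : PartialOrder Λ) (R : RetractionalSkeleton K Λ),
        ∀ n, IsSubskeletonUpToReindexing R (𝔰 n) := by
  refine ⟨Idx Γ₀, idxOrder Γ₀, skel 𝔰₀, ?_, ?_⟩
  · rintro (_ | n)
    · rfl
    · exact induced_blowUp 𝔰₀ _
  · rintro ⟨Λ, _, R, hR⟩
    exact no_common 𝔰₀ R (hR 0) (hR 1)

end Pool.Agent.Results.MP_fb95e7_gt.NoCommonSubskeleton
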